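import Pool.Agent.H70.TC1

namespace Pool.Agent.Results.MP_dff590_al.Q2False

open Pool.Agent.H70.TC

theorem result : ∃ (φ : FreeGroup Bool →* FreeGroup Bool) (X : Finset (FreeGroup Bool)),
    Subgroup.closure (X : Set (FreeGroup Bool)) = ⊤ ∧ 0 < tcr X φ :=
  ⟨φ, X₀, gen₀, free_pos⟩

end Pool.Agent.Results.MP_dff590_al.Q2False
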